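import Pool.Agent.Helper36.Pin.Defs3
import Pool.Agent.Helper16.Pin.RankD

/-!
# Module QA of `MP_35f203_lc`: generalities on the rank function, stars
-/

namespace Pool.Agent.Helper36.Pin

open Finset Module

variable {V : Type} [Fintype V] [DecidableEq V]

theorem rk_insert_cl {A A' : Finset (Sym2 V)} (h : A ⊆ A') (e : Sym2 V)
    (he : rk (insert e A) = rk A) : rk (insert e A') = rk A' := by
  apply le_antisymm
  · have h1 := rk_submod (insert e A) A'
    have h2 : insert e A ∪ A' = insert e A' := by
      rw [insert_union, union_eq_right.2 h]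
    have h3 : A ⊆ insert e A ∩ A' := subset_inter (subset_insert _ _) h
    have h4 := rk_mono h3
    rw [h2] at h1
    omega
  · exact rk_mono (subset_insert _ _)

theorem rk_union_cl (A C : Finset (Sym2 V)) (h : ∀ e ∈ C, rk (insert e A) = rk A) :
    rk (A ∪ C) = rk A := by
  induction C using Finset.induction_on with
  | empty => rw [union_empty]
  | insert e C he ih =>
    rw [union_insert, rk_insert_cl (subset_union_left : A ⊆ A ∪ C) e (h e (mem_insert_self _ _))]
    exact ih (fun e' he' => h e' (mem_insert_of_mem he'))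

namespace QA

theorem rk_biUnion_le {ι : Type} [DecidableEq ι] (I : Finset ι) (C : ι → Finset (Sym2 V)) :
    rk (I.biUnion C) ≤ ∑ i ∈ I, rk (C i) := by
  induction I using Finset.induction_on with
  | empty => rw [biUnion_empty, sum_empty, rk_empty]
  | insert i I hi ih =>
    rw [biUnion_insert, sum_insert hi]
    exact (rk_union_le _ _).trans (Nat.add_le_add_left ih _)

theorem replace {ι : Type} [DecidableEq ι] (I : Finset ι) (A C : ι → Finset (Sym2 V))
    (hC : ∀ i ∈ I, C i ⊆ A i) : ∀ X : Finset (Sym2 V),
    rk (X ∪ I.biUnion A) + ∑ i ∈ I, rk (C i) ≤ rk (X ∪ I.biUnion C) + ∑ i ∈ I, rk (A i) := by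
  induction I using Finset.induction_on with
  | empty => intro X; rw [biUnion_empty, biUnion_empty, sum_empty, sum_empty]
  | insert i I hi ih =>
    intro X
    have h1 := ih (fun j hj => hC j (mem_insert_of_mem hj)) (X ∪ C i)
    have h2 := rk_submod (A i) (X ∪ C i ∪ I.biUnion A)
    have h3 : A i ∪ (X ∪ C i ∪ I.biUnion A) = X ∪ (insert i I).biUnion A := by
      have := hC i (mem_insert_self _ _)
      rw [biUnion_insert]
      ext e
      simp only [mem_union]
      constructor
      · rintro (h | (h | h) | h)
        · exact Or.inr (Or.inl h)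
        · exact Or.inl h
        · exact Or.inr (Or.inl (this h))
        · exact Or.inr (Or.inr h)
      · rintro (h | h | h)
        · exact Or.inr (Or.inl (Or.inl h))
        · exact Or.inl h
        · exact Or.inr (Or.inr h)
    have h4 : C i ⊆ A i ∩ (X ∪ C i ∪ I.biUnion A) :=
      subset_inter (hC i (mem_insert_self _ _))
        (subset_union_right.trans subset_union_left)
    have h5 := rk_mono h4
    have h6 : X ∪ C i ∪ I.biUnion C = X ∪ (insert i I).biUnion C := by
      rw [biUnion_insert, union_assoc]
    rw [h3] at h2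
    rw [h6] at h1
    rw [sum_insert hi, sum_insert hi]
    omega

end QA

theorem rk_direct {ι : Type} [DecidableEq ι] (I : Finset ι) (A C : ι → Finset (Sym2 V))
    (hC : ∀ i ∈ I, C i ⊆ A i) (h : ∑ i ∈ I, rk (A i) ≤ rk (I.biUnion A)) :
    rk (I.biUnion C) = ∑ i ∈ I, rk (C i) := by
  apply le_antisymm (QA.rk_biUnion_le I C)
  have h1 := QA.replace I A C hC ∅
  rw [empty_union, empty_union] at h1
  omega

namespace QA

omit [Fintype V] in
theorem mem_star {Y S : Finset V} {e : Sym2 V} :
    e ∈ star Y S ↔ e ∈ Y.sym2 ∧ ¬ e.IsDiag ∧ ∃ v ∈ S, v ∈ e := by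
  simp only [star, mem_filter]

theorem rk_fan (u u' : V) (huu : u ≠ u') (W : Finset V) (hu : u ∉ W) (hu' : u' ∉ W) :
    rk (insert s(u, u') (W.biUnion (fun w => {s(w, u), s(w, u')}))) = 2 * W.card + 1 := by
  induction W using Finset.induction_on with
  | empty =>
    rw [biUnion_empty, card_empty]
    exact rk_singleton huu
  | insert w W hw ih =>
    have hu1 : u ∉ W := fun h => hu (mem_insert_of_mem h)
    have hu1' : u' ∉ W := fun h => hu' (mem_insert_of_mem h)
    have hwu : w ≠ u := fun h => hu (h ▸ mem_insert_self _ _)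
    have hwu' : w ≠ u' := fun h => hu' (h ▸ mem_insert_self _ _)
    have ih' := ih hu1 hu1'
    have h1 : insert s(u, u') ((insert w W).biUnion (fun w => {s(w, u), s(w, u')})) =
        insert s(w, u) (insert s(w, u')
          (insert s(u, u') (W.biUnion (fun w => {s(w, u), s(w, u')})))) := by
      rw [biUnion_insert]
      ext e
      simp only [mem_insert, mem_union, mem_singleton]
      tauto
    rw [h1, rk_zero_ext _ w u u' ?_ hwu hwu' huu, ih', card_insert_of_notMem hw]
    · ring
    · intro e he hwe
      rw [mem_insert, mem_biUnion] at he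
      rcases he with rfl | ⟨x, hx, he⟩
      · rw [Sym2.mem_iff] at hwe
        rcases hwe with h | h
        · exact hwu h
        · exact hwu' h
      · rw [mem_insert, mem_singleton] at he
        have hwx : w ≠ x := fun h => hw (h ▸ hx)
        rcases he with rfl | rfl
        · rw [Sym2.mem_iff] at hwe
          rcases hwe with h | h
          · exact hwx h
          · exact hwu h
        · rw [Sym2.mem_iff] at hwe
          rcases hwe with h | h
          · exact hwx h
          · exact hwu' h

theorem star_one {Y S : Finset V} {v : V} (h : S ∩ Y = {v}) :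
    star Y S = (Y.erase v).image (fun w => s(v, w)) := by
  have hv : v ∈ S ∩ Y := by rw [h]; exact mem_singleton_self v
  rw [mem_inter] at hv
  ext e
  rw [mem_star, mem_image]
  constructor
  · rintro ⟨h1, h2, x, hxS, hxe⟩
    obtain ⟨y, rfl⟩ := hxe
    rw [mk_mem_sym2] at h1
    have hx : x ∈ S ∩ Y := mem_inter.2 ⟨hxS, h1.1⟩
    rw [h, mem_singleton] at hx
    subst hx
    rw [Sym2.mk_isDiag_iff] at h2
    exact ⟨y, mem_erase.2 ⟨fun h => h2 h.symm, h1.2⟩, rfl⟩
  · rintro ⟨w, hw, rfl⟩
    rw [mem_erase] at hw
    refine ⟨mk_mem_sym2.2 ⟨hv.2, hw.2⟩, ?_, v, hv.1, Sym2.mem_mk_left _ _⟩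
    rw [Sym2.mk_isDiag_iff]
    exact fun h => hw.1 h.symm

end QA

open QA in
theorem rk_star (Y S : Finset V) : rk (star Y S) = rho Y.card (S ∩ Y).card := by
  unfold rho
  split_ifs with h0 h1
  · rw [card_eq_zero] at h0
    have : star Y S = ∅ := by
      rw [eq_empty_iff_forall_notMem]
      intro e he
      rw [mem_star] at he
      obtain ⟨h1, h2, x, hxS, hxe⟩ := he
      obtain ⟨y, rfl⟩ := hxe
      rw [mk_mem_sym2] at h1
      have hx : x ∈ S ∩ Y := mem_inter.2 ⟨hxS, h1.1⟩
      rw [h0] at hx
      exact absurd hx (notMem_empty x)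
    rw [this, rk_empty]
  · obtain ⟨v, hv⟩ := card_eq_one.1 h1
    have hvm : v ∈ S ∩ Y := by rw [hv]; exact mem_singleton_self v
    rw [mem_inter] at hvm
    have hstar := star_one hv
    have hinj : Function.Injective (fun w => s(v, w)) := by
      intro w w' h
      exact Sym2.congr_right.1 h
    have hcard : (star Y S).card = Y.card - 1 := by
      rw [hstar, card_image_of_injective _ hinj, card_erase_of_mem hvm.2]
    have hsp : Sparse (star Y S) := by
      refine ⟨fun e he => (mem_star.1 he).2.1, ?_⟩
      intro X hX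
      by_cases hvX : v ∈ X
      · have hsub : star Y S ∩ X.sym2 ⊆ (X.erase v).image (fun w => s(v, w)) := by
          intro e he
          rw [mem_inter, hstar, mem_image] at he
          obtain ⟨⟨w, hw, rfl⟩, h2⟩ := he
          rw [mk_mem_sym2] at h2
          rw [mem_image]
          exact ⟨w, mem_erase.2 ⟨(mem_erase.1 hw).1, h2.2⟩, rfl⟩
        have h3 := card_le_card hsub
        have h4 := card_image_le (s := X.erase v) (f := fun w => s(v, w))
        rw [card_erase_of_mem hvX] at h4
        omega
      · have hsub : star Y S ∩ X.sym2 = ∅ := by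
          rw [eq_empty_iff_forall_notMem]
          intro e he
          rw [mem_inter, hstar, mem_image] at he
          obtain ⟨⟨w, hw, rfl⟩, h2⟩ := he
          rw [mk_mem_sym2] at h2
          exact hvX h2.1
        rw [hsub, card_empty]
        omega
    apply le_antisymm
    · rw [← hcard]
      exact rk_le_card _
    · rw [← hcard]
      exact ModE.card_le_rk (Subset.refl _) hsp
  · have h2 : 2 ≤ (S ∩ Y).card := by omega
    obtain ⟨u, hu, u', hu', huu⟩ := one_lt_card.1 (show 1 < (S ∩ Y).card by omega)
    rw [mem_inter] at hu hu'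
    have hY : 2 ≤ Y.card := h2.trans (card_le_card inter_subset_right)
    apply le_antisymm
    · have := rk_inside_le (star Y S) Y hY (fun e he => (mem_star.1 he).1)
      omega
    · have h3 := rk_fan u u' huu ((Y.erase u).erase u') (by simp) (by simp)
      have hc : ((Y.erase u).erase u').card = Y.card - 2 := by
        rw [card_erase_of_mem (mem_erase.2 ⟨huu.symm, hu'.2⟩), card_erase_of_mem hu.2]
        omega
      have hsub : insert s(u, u') (((Y.erase u).erase u').biUnion
          (fun w => {s(w, u), s(w, u')})) ⊆ star Y S := by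
        intro e he
        rw [mem_insert, mem_biUnion] at he
        rw [mem_star]
        rcases he with rfl | ⟨w, hw, he⟩
        · refine ⟨mk_mem_sym2.2 ⟨hu.2, hu'.2⟩, ?_, u, hu.1, Sym2.mem_mk_left _ _⟩
          rw [Sym2.mk_isDiag_iff]
          exact huu
        · rw [mem_erase, mem_erase] at hw
          rw [mem_insert, mem_singleton] at he
          rcases he with rfl | rfl
          · refine ⟨mk_mem_sym2.2 ⟨hw.2.2, hu.2⟩, ?_, u, hu.1, Sym2.mem_mk_right _ _⟩
            rw [Sym2.mk_isDiag_iff]
            exact hw.2.1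
          · refine ⟨mk_mem_sym2.2 ⟨hw.2.2, hu'.2⟩, ?_, u', hu'.1, Sym2.mem_mk_right _ _⟩
            rw [Sym2.mk_isDiag_iff]
            exact hw.1
      have h4 := rk_mono hsub
      rw [h3, hc] at h4
      omega

end Pool.Agent.Helper36.Pin
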