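import Pool.Agent.Helper14.Pin.QA
import Pool.Agent.Helper36.Pin.J

/-!
# Module QE of `MP_35f203_lc`: from the filled graph to the graph
-/

namespace Pool.Agent.Helper36.Pin

open Finset Module

variable {V : Type} [Fintype V] [DecidableEq V]

namespace QE

theorem rigid_of_block {G : SimpleGraph V} {X : Finset V} (hX : X ∈ blocks G) :
    2 ≤ X.card ∧ rk (core G ∩ X.sym2) + 3 = 2 * X.card := by
  classical
  have h := (mem_filter.1 hX).2
  exact h.prop

theorem core_subset (G : SimpleGraph V) : core G ⊆ edges G := by
  classical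
  exact sdiff_subset

theorem edges_mono {G H : SimpleGraph V} (h : ∀ u v, G.Adj u v → H.Adj u v) :
    edges G ⊆ edges H := by
  intro e
  induction e using Sym2.ind with
  | _ u v =>
    rw [mem_edges_mk, mem_edges_mk]
    exact h u v

/-- pairs inside a block are in the closure of the core edges inside the block -/
theorem cl_block {G : SimpleGraph V} {X : Finset V} (hX : X ∈ blocks G) {A : Finset (Sym2 V)}
    (hA : core G ∩ X.sym2 ⊆ A) {e : Sym2 V} (he : e ∈ X.sym2) : rk (insert e A) = rk A := by
  have h1 := rigid_of_block hX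
  have h2 := rk_inside_le (insert e (core G ∩ X.sym2)) X h1.1
    (insert_subset he inter_subset_right)
  have h3 := rk_mono (subset_insert e (core G ∩ X.sym2))
  exact rk_insert_cl hA e (by omega)

/-- the conditional form: `hcov` and `hred` are part of module QB -/
theorem pins_of_fill_of (G : SimpleGraph V) (P : Finset V) (hP : 4 ≤ P.card)
    (hcov : ∀ e ∈ core G, ∃ X ∈ blocks G, e ∈ X.sym2)
    (hred : ∀ X ∈ blocks G, ∀ e, rk ((core G ∩ X.sym2).erase e) + 3 = 2 * X.card)
    (hA : FeasA (fill G) Pᶜ) (hN : ∀ S ⊆ Pᶜ, S.Nonempty → 3 ≤ (nbr G S).card) : Pins G P := by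
  classical
  have hn : 4 ≤ (Finset.univ : Finset V).card := hP.trans (card_le_card (subset_univ P))
  have hcompG : ∀ S ⊆ Pᶜ, ∀ u ∈ S, ∀ v, (G ⊔ completeOn P).Adj u v ↔ G.Adj u v := by
    intro S hS u hu v
    rw [SimpleGraph.sup_adj]
    constructor
    · rintro (h | h)
      · exact h
      · exact absurd h.2.1 (Finset.mem_compl.1 (hS hu))
    · exact Or.inl
  have hcompH : ∀ S ⊆ Pᶜ, ∀ u ∈ S, ∀ v, (fill G ⊔ completeOn P).Adj u v ↔ (fill G).Adj u v := by
    intro S hS u hu v
    rw [SimpleGraph.sup_adj]
    constructor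
    · rintro (h | h)
      · exact h
      · exact absurd h.2.1 (Finset.mem_compl.1 (hS hu))
    · exact Or.inl
  have hGR : GR (fill G ⊔ completeOn P) Finset.univ := by
    rw [gr_iff (fill G ⊔ completeOn P) Finset.univ P hn (subset_univ _) (Or.inr hP)
      (by
        intro u hu v hv huv
        rw [SimpleGraph.sup_adj]
        exact Or.inr ⟨huv, hu, hv⟩)
      (fun u _ v _ => mem_univ v)]
    intro S hS hne
    rw [← Finset.compl_eq_univ_sdiff] at hS
    rw [inc_congr (hcompH S hS)]
    refine ⟨hA S hS hne, Or.inr ?_⟩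
    refine (hN S hS hne).trans (card_le_card ?_)
    intro v hv
    rw [mem_nbr] at hv ⊢
    obtain ⟨h1, u, hu, huv⟩ := hv
    exact ⟨h1, u, hu, Or.inl (Or.inl huv)⟩
  have hTC : ThreeConn (G ⊔ completeOn P) Finset.univ := by
    rw [threeConn_iff (G ⊔ completeOn P) Finset.univ P (subset_univ _)
      (by
        intro u hu v hv huv
        rw [SimpleGraph.sup_adj]
        exact Or.inr ⟨huv, hu, hv⟩)
      (fun u _ v _ => mem_univ v)]
    refine ⟨hn, ?_⟩
    intro S hS hne
    rw [← Finset.compl_eq_univ_sdiff] at hS
    rw [nbr_congr (hcompG S hS)]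
    exact Or.inr (hN S hS hne)
  have huniv : ∀ F : Finset (Sym2 V), F ∩ (Finset.univ : Finset V).sym2 = F := by
    intro F
    rw [Finset.sym2_univ, inter_univ]
  obtain ⟨-, hR1, hR2⟩ := hGR
  rw [huniv] at hR1 hR2
  have hGG : core G ⊆ edges (G ⊔ completeOn P) :=
    (core_subset G).trans (edges_mono (fun u v h => Or.inl h))
  -- edges of the large graph are either edges of the small graph or inside blocks
  have hH : ∀ e ∈ edges (fill G ⊔ completeOn P),
      e ∈ edges (G ⊔ completeOn P) ∨ ∃ X ∈ blocks G, e ∈ X.sym2 := by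
    intro e
    induction e using Sym2.ind with
    | _ u v =>
      rw [mem_edges_mk, mem_edges_mk, SimpleGraph.sup_adj, SimpleGraph.sup_adj]
      rintro ((h | ⟨-, X, hX, hu, hv⟩) | h)
      · exact Or.inl (Or.inl h)
      · exact Or.inr ⟨X, hX, mk_mem_sym2.2 ⟨hu, hv⟩⟩
      · exact Or.inl (Or.inr h)
  have hup : ∀ F : Finset (Sym2 V), rk F + 3 ≤ 2 * (Finset.univ : Finset V).card := by
    intro F
    apply rk_inside_le F Finset.univ (by omega)
    rw [Finset.sym2_univ]
    exact subset_univ F
  have hfull : rk (edges (G ⊔ completeOn P)) + 3 = 2 * (Finset.univ : Finset V).card := by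
    have h1 : rk (edges (G ⊔ completeOn P) ∪ edges (fill G ⊔ completeOn P)) =
        rk (edges (G ⊔ completeOn P)) := by
      apply rk_union_cl
      intro e he
      rcases hH e he with h | ⟨X, hX, heX⟩
      · rw [insert_eq_self.2 h]
      · exact cl_block hX (inter_subset_left.trans hGG) heX
    have h2 := rk_mono (subset_union_right :
      edges (fill G ⊔ completeOn P) ⊆ edges (G ⊔ completeOn P) ∪ edges (fill G ⊔ completeOn P))
    have h3 := hup (edges (G ⊔ completeOn P))
    omega
  refine Or.inr ⟨by omega, hTC, ?_, ?_⟩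
  · rw [huniv]
    exact hfull
  · rw [huniv]
    intro e he
    by_cases hec : e ∈ core G
    · obtain ⟨X, hX, heX⟩ := hcov e hec
      have h1 := hred X hX e
      have h2 := rk_inside_le (insert e ((core G ∩ X.sym2).erase e)) X (rigid_of_block hX).1
        (insert_subset heX ((erase_subset _ _).trans inter_subset_right))
      have h3 := rk_mono (subset_insert e ((core G ∩ X.sym2).erase e))
      have h4 : (core G ∩ X.sym2).erase e ⊆ (edges (G ⊔ completeOn P)).erase e :=
        erase_subset_erase e (inter_subset_left.trans hGG)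
      have h5 := rk_insert_cl h4 e (by omega)
      rw [insert_erase he] at h5
      rw [← h5]
      exact hfull
    · have heH : e ∈ edges (fill G ⊔ completeOn P) := by
        refine edges_mono (G := G ⊔ completeOn P) ?_ he
        rintro u v (h | h)
        · exact Or.inl (Or.inl h)
        · exact Or.inr h
      have h1 := hR2 e heH
      have h2 : rk ((edges (G ⊔ completeOn P)).erase e ∪
          (edges (fill G ⊔ completeOn P)).erase e) = rk ((edges (G ⊔ completeOn P)).erase e) := by
        apply rk_union_cl
        intro e' he'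
        rw [mem_erase] at he'
        rcases hH e' he'.2 with h | ⟨X, hX, heX⟩
        · rw [insert_eq_self.2 (mem_erase.2 ⟨he'.1, h⟩)]
        · refine cl_block hX ?_ heX
          intro x hx
          rw [mem_inter] at hx
          refine mem_erase.2 ⟨?_, hGG hx.1⟩
          rintro rfl
          exact hec hx.1
      have h3 := rk_mono (subset_union_right :
        (edges (fill G ⊔ completeOn P)).erase e ⊆ (edges (G ⊔ completeOn P)).erase e ∪
          (edges (fill G ⊔ completeOn P)).erase e)
      have h4 := hup ((edges (G ⊔ completeOn P)).erase e)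
      omega

end QE

end Pool.Agent.Helper36.Pin
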